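import Pool.Agent.helper53.PV.SpecF

set_option autoImplicit false

open scoped Topology
open MeasureTheory Filter

namespace Pool.Agent.PV

open Pool.Agent.CZ

theorem FDS : FDS_stmt := by
  intro Y _ _ _ _
  let _ := TopologicalSpace.metrizableSpaceMetric Y
  refine ⟨fun j => TopologicalSpace.denseSeq Y (Nat.unpair j).1, fun z V hV N => ?_⟩
  obtain ⟨y, ⟨m, rfl⟩, hyV⟩ := (TopologicalSpace.denseRange_denseSeq Y).inter_nhds_nonempty hV
  refine ⟨Nat.pair m N, Nat.right_le_pair m N, ?_⟩
  show TopologicalSpace.denseSeq Y (Nat.unpair (Nat.pair m N)).1 ∈ V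
  rw [Nat.unpair_pair]
  exact hyV

end Pool.Agent.PV
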