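import Pool.Agent.helper53.PV.SpecF

set_option autoImplicit false

open scoped Topology
open MeasureTheory Filter

namespace Pool.Agent.PV

open Pool.Agent.CZ

theorem FNM (_hFID : FID_stmt) : FNM_stmt := by
  intro X₀ Y _ _ _ α₀ x₀ f hper _ _ μ hμ hinv k
  set B : ℤ → Set (ESp α₀ x₀ f) := fun n => ePr α₀ x₀ f ⁻¹' {(α₀ ^ n) x₀} with hB
  have hBm : ∀ n, MeasurableSet (B n) := fun n =>
    (isClosed_singleton.preimage (ePr α₀ x₀ f).continuous).measurableSet
  have hstep : ∀ n, μ (B (n + 1)) = μ (B n) := by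
    intro n
    have h1 : (eHom α₀ x₀ f) ⁻¹' (B (n + 1)) = B n := by
      ext q
      show α₀ q.1.1 = (α₀ ^ (n + 1)) x₀ ↔ q.1.1 = (α₀ ^ n) x₀
      have h2 : (α₀ ^ (n + 1)) x₀ = α₀ ((α₀ ^ n) x₀) := by
        rw [add_comm, zpow_add, zpow_one]
        rfl
      rw [h2]
      exact α₀.injective.eq_iff
    conv_lhs => rw [← hinv]
    rw [Measure.map_apply (eHom α₀ x₀ f).continuous.measurable (hBm _), h1]
  have hconst : ∀ n, μ (B n) = μ (B 0) := by
    intro n
    induction n using Int.induction_on with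
    | zero => rfl
    | succ i ih => rw [hstep, ih]
    | pred i ih =>
      have := hstep (-(i : ℤ) - 1)
      rw [sub_add_cancel] at this
      rw [← this, ih]
  have hdis : Pairwise (Function.onFun Disjoint B) := by
    intro n m hnm
    refine Set.disjoint_left.2 fun q hq hq' => hnm ?_
    have h1 : q.1.1 = (α₀ ^ n) x₀ := hq
    have h2 : q.1.1 = (α₀ ^ m) x₀ := hq'
    by_contra hne
    apply hper (-m + n) (by omega)
    rw [← zpow_zpow_apply, ← h1, h2, zpow_zpow_apply, neg_add_cancel, zpow_zero]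
    rfl
  have hsum : ∑' n, μ (B n) ≤ 1 := by
    rw [← measure_iUnion hdis hBm]
    exact prob_le_one
  have hc : μ (B 0) = 0 := by
    by_contra hc
    simp_rw [hconst] at hsum
    rw [ENNReal.tsum_const_eq_top_of_ne_zero hc] at hsum
    exact absurd hsum (by simp)
  show μ (B (-k)) = 0
  rw [hconst, hc]

end Pool.Agent.PV
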