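import Pool.Agent.helper53.PV.SpecD

set_option autoImplicit false

open scoped Topology
open MeasureTheory Filter

namespace Pool.Agent.PV

open Pool.Agent.CZ

theorem LEV_sh {X : Type} [TopologicalSpace X] {α : X ≃ₜ X} (m n : ℤ) (f : C(X, ℂ)) : sh α m (sh α n f) = sh α (n + m) f := by
  ext x
  show f ((α ^ n) ((α ^ m) x)) = f ((α ^ (n + m)) x)
  rw [zpow_add]
  rfl

theorem LEV_sh0 {X : Type} [TopologicalSpace X] {α : X ≃ₜ X} (f : C(X, ℂ)) : sh α 0 f = f := by
  ext x
  show f ((α ^ (0 : ℤ)) x) = f x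
  rw [zpow_zero]
  rfl

theorem LEV_up_add {B : Type} [CStarAlgebra B] (v : unitary B) (m n : ℤ) : up v (m + n) = up v m * up v n := by
  unfold up
  rw [zpow_add]
  rfl

theorem LEV_up0 {B : Type} [CStarAlgebra B] (v : unitary B) : up v 0 = 1 := by
  unfold up
  rw [zpow_zero]
  rfl

theorem LEV_star {B : Type} [CStarAlgebra B] (v : unitary B) (n : ℤ) : star (up v n) = up v (-n) := by
  unfold up
  rw [zpow_neg, ← Unitary.star_eq_inv]
  rfl

section
variable {X : Type} [TopologicalSpace X] [CompactSpace X] {α : X ≃ₜ X} {B : Type} [CStarAlgebra B]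

theorem LEV_pos (p : CovPair α B) (f : C(X, ℂ)) : up p.v 1 * p.j f = p.j (sh α (-1) f) * up p.v 1 := by
  have h := p.cov f
  have e1 : up p.v 1 = (p.v : B) := by
    unfold up
    rw [zpow_one]
  have e2 : sh α (-1) f = f.comp (α.symm : C(X, X)) := by
    unfold sh
    rw [zpow_neg_one]
    rfl
  rw [e1, e2, ← h, mul_assoc, mul_assoc, Unitary.coe_star_mul_self, mul_one]

theorem LEV_neg (p : CovPair α B) (f : C(X, ℂ)) :
    up p.v (-1) * p.j f = p.j (sh α 1 f) * up p.v (-1) := by
  have h := LEV_pos p (sh α 1 f)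
  rw [LEV_sh] at h
  have e : (1 : ℤ) + -1 = 0 := by norm_num
  rw [e, LEV_sh0] at h
  have e1 : up p.v (-1) * up p.v 1 = 1 := by
    rw [← LEV_up_add, neg_add_cancel, LEV_up0]
  have e2 : up p.v 1 * up p.v (-1) = 1 := by
    rw [← LEV_up_add, add_neg_cancel, LEV_up0]
  calc up p.v (-1) * p.j f = up p.v (-1) * (p.j f * (up p.v 1 * up p.v (-1))) := by rw [e2, mul_one]
    _ = up p.v (-1) * ((p.j f * up p.v 1) * up p.v (-1)) := by rw [mul_assoc]
    _ = up p.v (-1) * ((up p.v 1 * p.j (sh α 1 f)) * up p.v (-1)) := by rw [h]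
    _ = (up p.v (-1) * up p.v 1) * (p.j (sh α 1 f) * up p.v (-1)) := by simp only [mul_assoc]
    _ = p.j (sh α 1 f) * up p.v (-1) := by rw [e1, one_mul]

theorem LEV_cov (p : CovPair α B) (n : ℤ) :
    ∀ f : C(X, ℂ), up p.v n * p.j f = p.j (sh α (-n) f) * up p.v n := by
  induction n using Int.induction_on with
  | zero => intro f; rw [LEV_up0, one_mul, mul_one, neg_zero, LEV_sh0]
  | succ i ih =>
    intro f
    rw [LEV_up_add, mul_assoc, LEV_pos, ← mul_assoc, ih, LEV_sh, mul_assoc, ← LEV_up_add]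
    congr 3
    ring
  | pred i ih =>
    intro f
    have e : (-(i : ℤ) - 1) = -(i : ℤ) + -1 := by ring
    rw [e, LEV_up_add, mul_assoc, LEV_neg, ← mul_assoc, ih, LEV_sh, mul_assoc, ← LEV_up_add]
    congr 3
    ring

end

theorem LEV : LEV_stmt := by
  intro X _ _ α B _ p
  have hz : ∀ n : ℤ, p.j (0 : C(X, ℂ)) * up p.v n = 0 := fun n => by rw [map_zero, zero_mul]
  have h1 : ∀ F G, p.ev (F + G) = p.ev F + p.ev G := by
    intro F G
    unfold CovPair.ev
    refine Finsupp.sum_add_index' hz fun n f g => ?_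
    rw [map_add, add_mul]
  have h2 : ∀ (z : ℂ) F, p.ev (z • F) = z • p.ev F := by
    intro z F
    unfold CovPair.ev
    rw [Finsupp.sum_smul_index' hz, Finsupp.smul_sum]
    refine Finsupp.sum_congr fun n _ => ?_
    rw [map_smul, smul_mul_assoc]
  have h3 : ∀ n f, p.ev (Finsupp.single n f) = p.j f * up p.v n := by
    intro n f
    unfold CovPair.ev
    exact Finsupp.sum_single_index (hz n)
  refine ⟨h1, h2, h3, fun n f => LEV_cov p n f, ?_, ?_, ?_⟩
  · intro f g n m
    rw [mul_assoc, ← mul_assoc (up p.v n), LEV_cov, map_mul, LEV_up_add]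
    simp only [mul_assoc]
  · intro f n
    rw [star_mul, LEV_star, ← map_star, LEV_cov, neg_neg]
  · intro a
    constructor
    · intro ha
      induction ha using Submodule.span_induction with
      | mem x hx =>
        obtain ⟨f, n, rfl⟩ := hx
        exact ⟨Finsupp.single n f, (h3 n f).symm⟩
      | zero => exact ⟨0, by unfold CovPair.ev; rw [Finsupp.sum_zero_index]⟩
      | add x y _ _ hx hy =>
        obtain ⟨F, rfl⟩ := hx
        obtain ⟨G, rfl⟩ := hy
        exact ⟨F + G, (h1 F G).symm⟩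
      | smul z x _ hx =>
        obtain ⟨F, rfl⟩ := hx
        exact ⟨z • F, (h2 z F).symm⟩
    · rintro ⟨F, rfl⟩
      unfold CovPair.ev Finsupp.sum
      exact Submodule.sum_mem _ fun n _ => Submodule.subset_span ⟨F n, n, rfl⟩

end Pool.Agent.PV
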