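import Pool.Agent.helper77.PV.SpecB

set_option autoImplicit false

open scoped Matrix Topology
open Filter

namespace Pool.Agent.PV

open Pool.Agent.CZ

theorem QD (hQS : QS_stmt) : QD_stmt := by
  intro B A _ _ _ _ _ _ al io u c hZ a b L hL
  obtain ⟨h1, h2, h3⟩ := hQS B A al io u c hZ a b L hL
  set r : ℤ → B := fun n => c n (L⁻¹ : Aˣ) with hr
  have E1 : ∀ n : ℤ, a * r n + b * al (r (n - 1)) = if n = 0 then 1 else 0 := h1
  have E2 : ∀ n : ℤ, r n * (al ^ n) a + r (n - 1) * (al ^ (n - 1)) b = if n = 0 then 1 else 0 := h2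
  have S : ∀ m n : ℤ, r m * (al ^ m) b * (al ^ (m + 1)) (r n) =
    if m < 0 ∧ n < 0 then r (m + n + 1) else if 0 ≤ m ∧ 0 ≤ n then - r (m + n + 1) else 0 := h3
  have hm1 : ∀ x : B, (al ^ (-1 : ℤ)) x = al.symm x := fun x => by
    rw [zpow_neg_one]
    rfl
  have h0 : ∀ x : B, (al ^ (0 : ℤ)) x = x := fun x => by
    rw [zpow_zero]
    rfl
  have hadd : ∀ (n : ℤ) (x : B), (al ^ (n + 1)) x = (al ^ n) (al x) := fun n x => by
    rw [zpow_add_one]
    rfl
  have hadd' : ∀ (n : ℤ) (x : B), (al ^ (n + 1)) x = al ((al ^ n) x) := fun n x => by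
    rw [add_comm, zpow_add, zpow_one]
    rfl
  have hS1 : ∀ n : ℤ, r (-1) * al.symm b * r n = if n < 0 then r n else 0 := by
    intro n
    have h := S (-1) n
    have e1 : (-1 : ℤ) + 1 = 0 := by norm_num
    have e2 : (-1 : ℤ) + n + 1 = n := by ring
    rw [hm1, e1, h0, e2] at h
    rw [h]
    by_cases hn : n < 0
    · rw [if_pos ⟨by norm_num, hn⟩, if_pos hn]
    · rw [if_neg (fun hh => hn hh.2), if_neg (fun hh => by omega), if_neg hn]
  have hS2 : ∀ n : ℤ, r n * (al ^ n) (b * al (r (-1))) = if n < 0 then r n else 0 := by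
    intro n
    have h := S n (-1)
    have e2 : n + (-1 : ℤ) + 1 = n := by ring
    rw [hadd, e2] at h
    rw [map_mul, ← mul_assoc, h]
    by_cases hn : n < 0
    · rw [if_pos ⟨hn, by norm_num⟩, if_pos hn]
    · rw [if_neg (fun hh => hn hh.1), if_neg (fun hh => by omega), if_neg hn]
  have hqr : r (-1) * al.symm b * r (-1) = r (-1) := by
    rw [hS1, if_pos (by norm_num)]
  have ha1 : a * r (-1) = - (b * al (r (-2))) := by
    have h := E1 (-1)
    have e1 : (-1 : ℤ) - 1 = -2 := by norm_num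
    rw [e1, if_neg (by norm_num)] at h
    exact eq_neg_of_add_eq_zero_left h
  have ha2 : r (-1) * al.symm a = - (r (-2) * (al ^ (-2 : ℤ)) b) := by
    have h := E2 (-1)
    have e1 : (-1 : ℤ) - 1 = -2 := by norm_num
    rw [e1, if_neg (by norm_num), hm1] at h
    exact eq_neg_of_add_eq_zero_left h
  have ha3 : al ((al ^ (-2 : ℤ)) b) = al.symm b := by
    rw [← hadd', ← hm1]
    norm_num
  have haq : a * (r (-1) * al.symm b) = b * al (r (-1)) * a := by
    have e1 : a = al (al.symm a) := (al.apply_symm_apply a).symm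
    have e2 : b * al (r (-1)) * a = b * al (r (-1) * al.symm a) := by
      rw [map_mul, al.apply_symm_apply, mul_assoc]
    rw [e2, ha2, ← mul_assoc, ha1, map_neg, map_mul, ha3, mul_neg, neg_mul, mul_assoc]
  refine ⟨rfl, rfl, ?_, ?_, ?_, ?_, haq, ?_, ?_, ?_, ?_, ?_, ?_⟩
  · show r (-1) * al.symm b * (r (-1) * al.symm b) = r (-1) * al.symm b
    rw [← mul_assoc, hqr]
  · show b * al (r (-1)) * (b * al (r (-1))) = b * al (r (-1))
    have e : al (r (-1)) * (b * al (r (-1))) = al (r (-1) * al.symm b * r (-1)) := by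
      rw [map_mul, map_mul, al.apply_symm_apply, mul_assoc]
    rw [mul_assoc, e, hqr]
  · show r 0 * a = 1 - r (-1) * al.symm b
    have h := E2 0
    rw [h0, zero_sub, hm1, if_pos rfl] at h
    exact eq_sub_of_add_eq h
  · show a * r 0 = 1 - b * al (r (-1))
    have h := E1 0
    rw [zero_sub, if_pos rfl] at h
    exact eq_sub_of_add_eq h
  · show b * al (r (-1) * al.symm b) = b * al (r (-1)) * b
    rw [map_mul, al.apply_symm_apply, mul_assoc]
  · intro n hn
    show r (-1) * al.symm b * r n = r n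
    rw [hS1, if_pos hn]
  · intro n hn
    show r (-1) * al.symm b * r n = 0
    rw [hS1, if_neg (by omega)]
  · intro n hn
    show r n * (al ^ n) (b * al (r (-1))) = r n
    rw [hS2, if_pos hn]
  · intro n hn
    show r n * (al ^ n) (b * al (r (-1))) = 0
    rw [hS2, if_neg (by omega)]
  · show b * al (r (-1)) * a * r (-1) = 0 - b * al (r (-2))
    rw [← haq, mul_assoc, hqr, ha1, zero_sub]

end Pool.Agent.PV
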