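import Pool.Agent.helper53.PV.SpecF

set_option autoImplicit false

open scoped Topology
open MeasureTheory Filter

namespace Pool.Agent.PV

open Pool.Agent.CZ

theorem FAP : FAP_stmt := by
  intro X _ _ _ α hmin x n hn hx
  have hq : ∀ q : ℤ, (α ^ (n * q)) x = x := by
    have h1 : ∀ m : ℕ, ((α ^ n) ^ m) x = x := by
      intro m
      induction m with
      | zero => rfl
      | succ m ih =>
        rw [pow_succ]
        show ((α ^ n) ^ m) ((α ^ n) x) = x
        rw [hx, ih]
    intro q
    rw [zpow_mul]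
    obtain ⟨m, rfl | rfl⟩ := q.eq_nat_or_neg
    · rw [zpow_natCast, h1]
    · rw [zpow_neg, zpow_natCast]
      have h2 := h1 m
      conv_lhs => rw [← h2]
      show (((α ^ n) ^ m)⁻¹ * ((α ^ n) ^ m)) x = x
      rw [inv_mul_cancel]
      rfl
  have hfin : (Set.range (fun k : ℤ => (α ^ k) x)).Finite := by
    refine ((Set.finite_Ico (0 : ℤ) |n|).image (fun k : ℤ => (α ^ k) x)).subset ?_
    rintro _ ⟨k, rfl⟩
    refine ⟨k % n, ⟨Int.emod_nonneg k hn, Int.emod_lt_abs k hn⟩, ?_⟩
    have h3 : k = k % n + n * (k / n) := (Int.emod_add_mul_ediv k n).symm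
    show (α ^ (k % n)) x = (α ^ k) x
    conv_rhs => rw [h3]
    rw [← zpow_zpow_apply, hq]
  have hd := hmin x
  have h4 : Set.range (fun k : ℤ => (α ^ k) x) = Set.univ := by
    rw [← hfin.isClosed.closure_eq]
    exact hd.closure_eq
  rw [h4] at hfin
  exact Set.infinite_univ hfin

end Pool.Agent.PV
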